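import Mathlib

namespace Pool.Agent.Results.MP_fa2b2f_an.Counter
open MeasureTheory Set Filter Topology Metric
open scoped ENNReal NNReal symmDiff

section
variable {X : Type} [MetricSpace X] [MeasurableSpace X]

/-- asymptotic slope -/
noncomputable def lipa (f : X → ℝ) (x : X) : ℝ≥0∞ :=
  ⨅ (r : ℝ) (_ : 0 < r) (K : ℝ≥0) (_ : LipschitzOnWith K f (ball x r)), (K : ℝ≥0∞)

/-- convergence in `L¹_loc` -/
def LocConv (m : Measure X) (f : ℕ → X → ℝ) (g : X → ℝ) : Prop :=
  ∀ x, ∃ r > 0, Tendsto (fun n => ∫⁻ y in ball x r, ‖f n y - g y‖ₑ ∂m) atTop (𝓝 0)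

/-- perimeter -/
noncomputable def Per (m : Measure X) (E : Set X) : ℝ≥0∞ :=
  ⨅ (f : ℕ → X → ℝ) (_ : ∀ n, LocallyLipschitz (f n)) (_ : LocConv m f (E.indicator 1)),
    liminf (fun n => ∫⁻ x, lipa (f n) x ∂m) atTop

/-- minimizers of `M_l` among Borel subsets of `Ω` -/
def Min1 (m : Measure X) (Ω : Set X) (l : ℝ≥0) (E : Set X) : Prop :=
  MeasurableSet E ∧ E ⊆ Ω ∧ ∀ A, MeasurableSet A → A ⊆ Ω →
    Per m E + l * m (Ω \ E) ≤ Per m A + l * m (Ω \ A)

/-- minimizers of the symmetric-difference functional among all Borel sets -/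
def Min2 (m : Measure X) (Ω : Set X) (l : ℝ≥0) (E : Set X) : Prop :=
  MeasurableSet E ∧ ∀ A, MeasurableSet A → Per m E + l * m (Ω ∆ E) ≤ Per m A + l * m (Ω ∆ A)
end

lemma step (δ : ℝ) (hδ : 0 < δ) : ∃ g : ℝ → ℝ, (∃ K, LipschitzWith K g) ∧ (∀ x, 0 ≤ g x ∧ g x ≤ 1) ∧
    (∀ x ≤ 0, g x = 0) ∧ (∀ x, δ ≤ x → g x = 1) ∧ ∀ q : ℚ, ∀ᶠ y in 𝓝 (q : ℝ), g y = g q := by
  have hQ : (range ((↑) : ℚ → ℝ)).Countable := countable_range _
  obtain ⟨K, hK, cK, pK⟩ := (measurableSet_Ioo.diff hQ.measurableSet :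
      MeasurableSet (Ioo 0 δ \ range ((↑) : ℚ → ℝ))).exists_lt_isCompact (μ := volume) (r := 0)
    (by rw [measure_diff_null (hQ.measure_zero _)]; simpa using hδ)
  have fin : ∀ s, volume (K ∩ s) ≠ ∞ := fun s =>
    ((measure_mono inter_subset_left).trans_lt cK.measure_lt_top).ne
  have c0 : 0 < volume.real K := ENNReal.toReal_pos pK.ne' cK.measure_lt_top.ne
  refine ⟨fun x => (volume.real K)⁻¹ * volume.real (K ∩ Iic x), ⟨⟨(volume.real K)⁻¹, by
    positivity⟩, LipschitzWith.of_le_add_mul _ fun x y => ?_⟩, fun x => ⟨by positivity, ?_⟩,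
    fun x hx => ?_, fun x hx => ?_, fun q => ?_⟩
  · change _ ≤ _ + (volume.real K)⁻¹ * _
    rw [← mul_add]
    gcongr
    have : K ∩ Iic x ⊆ (K ∩ Iic y) ∪ Ioc y (y + dist x y) := fun z hz => by
      by_cases h : z ≤ y
      · exact Or.inl ⟨hz.1, h⟩
      · refine Or.inr ⟨not_le.1 h, hz.2.trans ?_⟩
        rw [Real.dist_eq]
        linarith [le_abs_self (x - y)]
    refine (measureReal_mono this (by simp [fin])).trans ((measureReal_union_le _ _).trans ?_)
    simp
  · rw [inv_mul_le_iff₀ c0, mul_one]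
    exact measureReal_mono inter_subset_left cK.measure_lt_top.ne
  · have : K ∩ Iic x = ∅ := eq_empty_of_forall_notMem fun z hz =>
      absurd ((hK hz.1).1.1.trans_le (hz.2.trans hx)) (lt_irrefl _)
    simp [this]
  · have : K ∩ Iic x = K := inter_eq_left.2 fun z hz => (hK hz).1.2.le.trans hx
    simp [this, c0.ne']
  · obtain ⟨r, hr, h⟩ := Metric.isOpen_iff.1 cK.isClosed.isOpen_compl q
      fun h => (hK h).2 ⟨q, rfl⟩
    filter_upwards [ball_mem_nhds (q : ℝ) hr] with y hy
    congr 2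
    ext z
    refine and_congr_right fun hz => ?_
    have : ¬ |z - q| < r := fun e => h (by rwa [mem_ball, Real.dist_eq]) hz
    rw [mem_ball, Real.dist_eq, abs_lt] at hy
    rw [abs_lt] at this
    simp only [mem_Iic]
    constructor <;> intro h' <;> by_contra hc <;> apply this <;> constructor <;> linarith

theorem result : ∃ m : Measure ℝ, IsFiniteMeasure m ∧ m.IsOpenPosMeasure ∧ ∀ l : ℝ≥0,
    Min1 m (Ioo 0 1) l (Ioo 0 1) ∧ Min2 m (Ioo 0 1) l (Ioo 0 1) ∧
      ∀ C, IsClosed C → 0 < m (Ioo 0 1 ∆ C) := by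
  obtain ⟨w, w0, w1⟩ := ENNReal.exists_pos_sum_of_countable one_ne_zero ℚ
  let m : Measure ℝ := Measure.sum fun q : ℚ => w q • Measure.dirac (q : ℝ)
  have pos : ∀ (q : ℚ) (s : Set ℝ), (q : ℝ) ∈ s → 0 < m s := fun q s hs => by
    refine lt_of_lt_of_le ?_ (Measure.le_sum _ q s)
    simpa [hs] using w0 q
  haveI : IsFiniteMeasure m := ⟨by
    simp only [m, Measure.sum_apply _ MeasurableSet.univ]
    simpa using w1.trans ENNReal.one_lt_top⟩
  have hP : Per m (Ioo 0 1) = 0 := by
    choose g g1 g2 g3 g4 g5 using fun n : ℕ => step (1 / ((n : ℝ) + 1)) (by positivity)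
    have hm : LipschitzWith 1 fun x : ℝ => min x (1 - x) := by
      simpa using LipschitzWith.id.min ((LipschitzWith.const 1).sub LipschitzWith.id)
    let f : ℕ → ℝ → ℝ := fun n x => g n (min x (1 - x))
    have fl : ∀ n, LocallyLipschitz (f n) := fun n =>
      ((g1 n).choose_spec.comp hm).locallyLipschitz
    refine le_antisymm (iInf_le_of_le f (iInf_le_of_le fl (iInf_le_of_le (fun x => ⟨1, one_pos, ?_⟩)
      (le_of_eq ?_)))) zero_le
    · have := tendsto_lintegral_of_dominated_convergence (μ := m.restrict (ball x 1))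
        (F := fun n y => ‖f n y - (Ioo (0 : ℝ) 1).indicator 1 y‖ₑ) (f := fun _ => 0) (fun _ => 1)
        (fun n => ((fl n).continuous.measurable.sub
          (measurable_one.indicator measurableSet_Ioo)).enorm)
        (fun n => Eventually.of_forall fun y => by
          have := g2 n (min y (1 - y))
          simp only [← ofReal_norm_eq_enorm, ENNReal.ofReal_le_one, Real.norm_eq_abs, abs_le, f]
          by_cases hy : y ∈ Ioo (0 : ℝ) 1 <;> simp only [hy, indicator_of_mem, indicator_of_notMem,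
            not_false_eq_true, Pi.one_apply] <;> constructor <;> linarith)
        (by simp) (Eventually.of_forall fun y => tendsto_const_nhds.congr' (by
          by_cases hy : y ∈ Ioo (0 : ℝ) 1
          · filter_upwards [tendsto_one_div_add_atTop_nhds_zero_nat.eventually_le_const
              (lt_min hy.1 (sub_pos.2 hy.2))] with n hn
            simp [f, g4 n _ hn, hy]
          · refine Eventually.of_forall fun n => ?_
            have : min y (1 - y) ≤ 0 := by
              by_contra hc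
              rw [not_le, lt_min_iff] at hc
              exact hy ⟨hc.1, sub_pos.1 hc.2⟩
            simp [f, g3 n _ this, hy]))
      simpa using this
    · have : ∀ n, ∫⁻ x, lipa (f n) x ∂m = 0 := fun n => by
        simp only [m, lintegral_sum_measure, lintegral_smul_measure, lintegral_dirac,
          ENNReal.tsum_eq_zero]
        intro q
        have h1 := hm.continuous.tendsto (q : ℝ)
        have h2 := g5 n (min q (1 - q))
        push_cast at h2
        obtain ⟨r, hr, h3⟩ := Metric.eventually_nhds_iff_ball.1 (h1.eventually h2)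
        have : lipa (f n) q = 0 := le_antisymm (iInf_le_of_le r (iInf_le_of_le hr
          (iInf_le_of_le 0 (iInf_le_of_le (fun a ha b hb => by
            simp [f, h3 a ha, h3 b hb]) le_rfl)))) zero_le
        simp [this]
      simp [this]
  refine ⟨m, inferInstance, ⟨fun U hU ⟨x, hx⟩ => ?_⟩, fun l => ⟨⟨measurableSet_Ioo, le_rfl,
    fun A _ _ => by simp [hP]⟩, ⟨measurableSet_Ioo, fun A _ => by simp [hP]⟩, fun C hC => ?_⟩⟩
  · obtain ⟨q, hq⟩ := Rat.denseRange_cast.exists_mem_open hU ⟨x, hx⟩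
    exact (pos q U hq).ne'
  · by_cases h0 : (0 : ℝ) ∈ C
    · exact pos 0 _ (Or.inr ⟨by simpa using h0, by simp⟩)
    · obtain ⟨r, hr, h⟩ := Metric.isOpen_iff.1 hC.isOpen_compl 0 h0
      obtain ⟨q, q1, q2⟩ := exists_rat_btwn (lt_min hr one_pos)
      rw [lt_min_iff] at q2
      exact pos q _ (Or.inl ⟨⟨q1, q2.2⟩, h (by
        rw [mem_ball, Real.dist_eq, sub_zero, abs_of_pos q1]; exact q2.1)⟩)

end Pool.Agent.Results.MP_fa2b2f_an.Counter
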